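import Pool.Agent.Y6.H.Stm
import Pool.Agent.Y5.EM.PH3b
import Pool.Agent.Y161.EM.WTM
import Pool.Agent.Y26.EM.PH2
import Pool.Agent.Y419.EM.Ph1
import Pool.Agent.Y812.EM.Frame

/-! The passage to fields (project HR of helper6, job HR-PH3H; adaptation of
`Pool/Agent/Y876/EF/Ph3.lean` of helper876 and `Pool/Agent/Y363/EP/PH3Q.lean` of helper363). -/

open Set Filter Topology
open scoped ComplexConjugate

set_option autoImplicit false

namespace Pool.Agent.Y465.HR.PH3H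

open Pool.Agent.Y6.H
open Pool.Agent.Y6.F (DSol Mx κr Prt rk code cd ln NM lvM σM αM vM Xm Ym S_LV S_CODE S_DATM)
open Pool.Agent.Y6.M (qd mq Kz Ker Adm Dat TSol Wt KSol cX cY Uth εc x0 Mains MDat Z3 C3 Coef dt cr
  cj kc nsq len adv leray Kop IsField IsSol energy enstr Md hs br Frame cK sgz amp fld S_PH1 S_PH2)
open Pool.Agent.Y5.EM.PH3 (dt_eq dt_sub_right dt_sub_left h_sum h_le nsq_nonneg nsq_one len_sq
  len_nonneg one_le_len fld_ne fld_zero fld_bd amp_bdq fld_field sum_md energy_fld)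

lemma one_le_NM (i : Md) : 1 ≤ NM i := Pool.Agent.Y5.EM.PH3.one_le_NM i

/-- the amplitude of the right hand side -/
lemma rhs_amp {S : ℕ → ℝ} {m n : Z3 → ℝ}
    (hmn : ∀ i : Md, m i.1.1 + hs i.2 * n i.1.1 = S (lvM i) * σM i)
    {h : Md → C3} (hF : Frame h) (h1 : S_PH1) (h2 : S_PH2) {V : Coef}
    (hV : IsField V) (i : Md) :
    dt (fun j => Kop m n V i.1.1 j - leray i.1.1 (adv V i.1.1) j) (cj (h i)) =
      Kz S lvM σM (amp h V) i + qd (cK h) (amp h V) i := by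
  obtain ⟨-, -, -, -, -, -, p7, p8, -, -⟩ := h1 h hF
  rw [dt_sub_left, p7 _ _ _ _ (hV.div _), p8, ← h2 h hF V hV i, hmn]
  unfold Kz
  ring

lemma rhs_div {h : Md → C3} (hF : Frame h) (h1 : S_PH1) (m n : Z3 → ℝ) {V : Coef}
    (hV : IsField V) (k : Z3) (hk : k ≠ 0) :
    dt (kc k) (fun j => Kop m n V k j - leray k (adv V k) j) = 0 := by
  obtain ⟨-, -, -, -, -, -, -, -, p9, p10⟩ := h1 h hF
  rw [dt_sub_right, p9 m n V k (hV.div k), p10 _ k hk, sub_zero]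

/-- the right hand side in terms of the amplitudes -/
lemma rhs_eq {S : ℕ → ℝ} {m n : Z3 → ℝ}
    (hmn : ∀ i : Md, m i.1.1 + hs i.2 * n i.1.1 = S (lvM i) * σM i)
    {h : Md → C3} (hF : Frame h) (h1 : S_PH1) (h2 : S_PH2) {V : Coef}
    (hV : IsField V) (k : Z3) (hk : k ≠ 0) (j : Fin 3) :
    Kop m n V k j - leray k (adv V k) j =
      (Kz S lvM σM (amp h V) (⟨k, hk⟩, true) + qd (cK h) (amp h V) (⟨k, hk⟩, true)) *
        h (⟨k, hk⟩, true) j +
      (Kz S lvM σM (amp h V) (⟨k, hk⟩, false) + qd (cK h) (amp h V) (⟨k, hk⟩, false)) *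
        h (⟨k, hk⟩, false) j := by
  have e1 := hF.compl ⟨k, hk⟩ (fun j => Kop m n V k j - leray k (adv V k) j)
    (rhs_div hF h1 _ _ hV k hk) j
  have e2 := rhs_amp hmn hF h1 h2 hV (⟨k, hk⟩, true)
  have e3 := rhs_amp hmn hF h1 h2 hV (⟨k, hk⟩, false)
  simp only at e1 e2 e3
  rw [e1, e2, e3]

/-- from amplitudes to fields -/
lemma sol_of {S : ℕ → ℝ} {m n : Z3 → ℝ}
    (hmn : ∀ i : Md, m i.1.1 + hs i.2 * n i.1.1 = S (lvM i) * σM i)
    {h : Md → C3} (hF : Frame h) (h1 : S_PH1) (h2 : S_PH2) {T : ℝ}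
    {z : Md → ℝ → ℂ} (hz : KSol S lvM br σM (cK h) NM T z) :
    IsSol m n T (fun t => fld h (fun i => z i t)) := by
  have hf : ∀ t ∈ Ico 0 T, IsField (fld h (fun i => z i t)) := by
    intro t ht
    refine fld_field hF h1 (fun i => hz.real i t ht) fun q => ?_
    obtain ⟨M, hM⟩ := hz.reg q t ht.2
    exact ⟨M, fun i => hM t ⟨ht.1, le_rfl⟩ i⟩
  refine ⟨hf, ?_, ?_⟩
  · intro q T' hT'
    obtain ⟨M, hM⟩ := hz.reg q T' hT'
    exact ⟨2 * M, fun t ht k j => fld_bd hF (hM t ht) k j⟩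
  · intro k hk j t ht
    have e1 := rhs_eq hmn hF h1 h2 (hf t ht) k hk j
    have e2 : amp h (fld h (fun i => z i t)) = fun i => z i t := by
      funext i
      exact (h1 h hF).1 _ i
    rw [e2] at e1
    rw [e1]
    have e3 : (fun s => fld h (fun i => z i s) k j) = fun s => z (⟨k, hk⟩, true) s *
        h (⟨k, hk⟩, true) j + z (⟨k, hk⟩, false) s * h (⟨k, hk⟩, false) j := by
      funext s
      exact fld_ne _ hk j
    rw [e3]
    exact ((hz.deriv (⟨k, hk⟩, true) t ht).mul_const _).add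
      ((hz.deriv (⟨k, hk⟩, false) t ht).mul_const _)

/-- from fields to amplitudes -/
lemma ksol_of {S : ℕ → ℝ} {m n : Z3 → ℝ}
    (hmn : ∀ i : Md, m i.1.1 + hs i.2 * n i.1.1 = S (lvM i) * σM i)
    {h : Md → C3} (hF : Frame h) (h1 : S_PH1) (h2 : S_PH2) {T : ℝ}
    {W : ℝ → Coef} (hW : IsSol m n T W) :
    KSol S lvM br σM (cK h) NM T (fun i t => amp h (W t) i) := by
  obtain ⟨p1, p2, p3, p4, p5, p6, p7, p8, p9, p10⟩ := h1 h hF
  refine ⟨?_, ?_, ?_⟩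
  · intro i t ht
    exact p3 (W t) (hW.field t ht).real i
  · intro i t ht
    have e1 := rhs_amp hmn hF h1 h2 (hW.field t ht) i
    rw [← e1]
    have e2 : (fun s => amp h (W s) i) = fun s => W s i.1.1 0 * cj (h i) 0 +
        W s i.1.1 1 * cj (h i) 1 + W s i.1.1 2 * cj (h i) 2 := by
      funext s
      unfold amp
      rw [dt_eq]
    rw [e2, dt_eq]
    have d := fun j => (hW.eqn i.1.1 i.1.2 j t ht).mul_const (cj (h i) j)
    exact ((d 0).add (d 1)).add (d 2)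
  · intro q T' hT'
    obtain ⟨M, hM⟩ := hW.reg (2 * q) T' hT'
    exact ⟨3 * M, fun t ht i => amp_bdq hF fun j => hM t ht _ j⟩

/-! ### the enstrophy -/

lemma enstr_sum {h : Md → C3} (hF : Frame h) (h1 : S_PH1) {z : Md → ℂ}
    (hs : Summable fun i => NM i * ‖z i‖ ^ 2) : enstr (fld h z) = ∑' i, NM i * ‖z i‖ ^ 2 :=
  Pool.Agent.Y5.EM.PH3.enstr_sum hF h1 hs

lemma enstr_summable {z : Md → ℂ} (hreg : ∀ q : ℕ, ∃ M, ∀ i, NM i ^ q * ‖z i‖ ≤ M) :
    Summable fun i => NM i * ‖z i‖ ^ 2 := by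
  obtain ⟨M0, hM0⟩ := hreg 0
  obtain ⟨M1, hM1⟩ := hreg (3 + 1)
  have hp : Summable (fun i : Md => (NM i ^ 3)⁻¹) := Pool.Agent.Y161.EM.WTM.summ
  refine Summable.of_nonneg_of_le (fun i => ?_) (fun i => ?_) (hp.mul_left (M0 * M1))
  · have := one_le_NM i
    positivity
  · have h1 := one_le_NM i
    have h0 : 0 < NM i ^ 3 := by positivity
    have e0 := hM0 i
    have e1 := hM1 i
    rw [pow_zero, one_mul] at e0
    rw [← div_eq_mul_inv, le_div_iff₀ h0]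
    have n0 : 0 ≤ ‖z i‖ := norm_nonneg _
    have m0 : 0 ≤ M0 := n0.trans e0
    calc NM i * ‖z i‖ ^ 2 * NM i ^ 3 = ‖z i‖ * (NM i ^ (3 + 1) * ‖z i‖) := by ring
      _ ≤ M0 * M1 := by
        apply mul_le_mul e0 e1 _ m0
        positivity

/-- the zero field -/
lemma zero_field : IsField (0 : Coef) where
  zero := rfl
  real := fun k j => by simp
  div := fun k => by
    rw [dt_eq]
    simp
  smooth := fun q => ⟨0, fun k j => by simp⟩

/-- the symbols and the speeds -/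
lemma sym_eq (ω : Md → ℝ) (i : Md) : mH ω i.1.1 + hs i.2 * nH ω i.1.1 = ω i := by
  obtain ⟨⟨k, hk⟩, s⟩ := i
  simp only
  unfold mH nH
  rw [dif_neg hk, dif_neg hk]
  cases s
  · simp only [hs, Bool.false_eq_true, if_false]; ring
  · simp only [hs, if_true]; ring

/-- a solution with the given initial field, for a fixed frame -/
lemma main_one {h : Md → C3} (hF : Frame h) (h1 : S_PH1) (h2 : S_PH2) (hLV : S_LV)
    (hSP : S_SPH) (hCD : S_CODE) (hGD : S_GAPD) (hB : S_BLOWH) (ω : Md → ℝ)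
    (hω : Odd0 ω) (hG : GapH (10 ^ 60) ω) :
    ∃ (T : ℝ) (V : ℝ → Coef), 0 < T ∧ V 0 = fld h vM ∧ IsSol (mH ω) (nH ω) T V ∧
    (∀ (T' : ℝ) (W : ℝ → Coef), 0 < T' → IsSol (mH ω) (nH ω) T' W → W 0 = V 0 →
      T' ≤ T ∧ ∀ t ∈ Ico 0 T', W t = V t) ∧
    (∀ t ∈ Ico 0 T, energy (V t) = energy (V 0)) ∧
    ∀ M : ℝ, ∃ t ∈ Ico 0 T, M < enstr (V t) := by
  have s1 := hSP hLV hCD ω hω
  have hgap : GapS (SH ω) := hGD hLV hCD hSP ω hω hG
  have hmn : ∀ i : Md, mH ω i.1.1 + hs i.2 * nH ω i.1.1 = SH ω (lvM i) * σM i := by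
    intro i
    rw [s1, sym_eq]
  obtain ⟨T, z, hT, hT1, hz, hz0, huniq, hen, hblow⟩ := hB (SH ω) hgap h hF
  have hsol := sol_of hmn hF h1 h2 hz
  refine ⟨T, fun t => fld h (fun i => z i t), hT, ?_, hsol, ?_, ?_, ?_⟩
  · show fld h (fun i => z i 0) = fld h vM
    congr 1
    funext i
    exact hz0 i
  · intro T' W hT' hWs hW0
    have hk := ksol_of hmn hF h1 h2 hWs
    have h0 : ∀ i, amp h (W 0) i = vM i := by
      intro i
      rw [hW0]
      have := (h1 h hF).1 (fun i => z i 0) i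
      rw [this]
      exact hz0 i
    obtain ⟨g1, g2⟩ := huniq T' _ hT' hk h0
    refine ⟨g1, fun t ht => ?_⟩
    have e1 := (h1 h hF).2.1 (W t) (hWs.field t ht).zero (hWs.field t ht).div
    rw [← e1]
    congr 1
    funext i
    exact g2 i t ht
  · intro t ht
    have e1 := hen t ht
    have e2 := hen 0 ⟨le_rfl, hT⟩
    rw [energy_fld hF h1 e1.1, energy_fld hF h1 e2.1, e1.2, e2.2]
  · intro M
    obtain ⟨t, ht, i, hi, hlt⟩ := hblow (max M 1)
    refine ⟨t, ht, ?_⟩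
    have hreg : ∀ q : ℕ, ∃ M, ∀ i, NM i ^ q * ‖z i t‖ ≤ M := by
      intro q
      obtain ⟨M, hM⟩ := hz.reg q t ht.2
      exact ⟨M, fun i => hM t ⟨ht.1, le_rfl⟩ i⟩
    have hs := enstr_summable hreg
    rw [enstr_sum hF h1 hs]
    have e1 : NM i * ‖z i t‖ ^ 2 ≤ ∑' i, NM i * ‖z i t‖ ^ 2 :=
      hs.le_tsum i fun j _ => by
        have := one_le_NM j
        positivity
    refine lt_of_lt_of_le ?_ e1
    obtain ⟨-, -, -, -, -, -, h7, -⟩ := hLV
    have e2 := (h7 i hi).1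
    have e3 : (αM (lvM i) * ‖z i t‖) ^ 2 ≤ NM i * ‖z i t‖ ^ 2 := by
      rw [mul_pow]
      gcongr
    have e4 : M ≤ max M 1 := le_max_left _ _
    have e5 : 1 ≤ max M 1 := le_max_right _ _
    nlinarith

/-- HR-PH3H -/
theorem t_PH3H : Pool.Agent.Y6.H.S_PH3H := by
  intro hLV hSP hCD _ hGD hB
  have h1 : S_PH1 := Pool.Agent.Y419.EM.Ph1.t_PH1
  have h2 : S_PH2 := Pool.Agent.Y26.EM.PH2.t_PH2 h1
  obtain ⟨h, hF⟩ := Pool.Agent.Y812.EM.Frame.t_FRAME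
  by_cases hex : ∃ ω, Odd0 ω ∧ GapH (10 ^ 60) ω
  · obtain ⟨ω₀, hω₀, hG₀⟩ := hex
    obtain ⟨T, V, hT, hV0, hsol, -⟩ := main_one hF h1 h2 hLV hSP hCD hGD hB ω₀ hω₀ hG₀
    refine ⟨fld h vM, ?_, fun ω hω hG => main_one hF h1 h2 hLV hSP hCD hGD hB ω hω hG⟩
    rw [← hV0]
    exact hsol.field 0 ⟨le_rfl, hT⟩
  · exact ⟨0, zero_field, fun ω hω hG => absurd ⟨ω, hω, hG⟩ hex⟩

end Pool.Agent.Y465.HR.PH3H
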